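import Pool.Agent.Lib.MP_4abaeb_an.Final

/-!
# `I + T` may be hypercyclic while `e ^ T` is a contraction, for quasinilpotent `T`

The operator `T` is the restriction of a weighted shift on `ℓ²(ℕ × ℕ)` to the closed cyclic
subspace of a vector `y`. The vector is a limit of exponential sums whose frequencies `μ` tend to
`0` in the half plane `Re μ < 0`, where `|e ^ μ| < 1` but both `|1 + μ| < 1` and `|1 + μ| > 1`
occur; the weights of the shift are chosen at the end.
-/

namespace Pool.Agent.Results.MP_4abaeb_an.QuasinilpotentHypercyclic

open Pool.Agent.MP_4abaeb_an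

/-- There are a complex Hilbert space `X` and a quasinilpotent operator `T` on `X` such that
`I + T` is hypercyclic and `e ^ T` is a contraction; in particular `e ^ T` is not hypercyclic. -/
theorem result : ∃ (X : Type) (_ : NormedAddCommGroup X) (_ : InnerProductSpace ℂ X)
    (_ : CompleteSpace X) (T : X →L[ℂ] X),
    IsQuasinilpotent T ∧ IsHypercyclic (1 + T) ∧
      ‖NormedSpace.exp T‖ ≤ 1 ∧ ¬ IsHypercyclic (NormedSpace.exp T) :=
  exists_counterexample

end Pool.Agent.Results.MP_4abaeb_an.QuasinilpotentHypercyclic
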